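import Pool.Agent.Helper65.OneSys.Final

/-!
MP_14cec7_gt (maximal 1-systems of curves): a maximal 1-system that does not fill.

The surface `S = G \ ℍ` has genus 8.  It is obtained from an arrangement of 11 simple closed curves on
the closed surface of genus 7, pairwise crossing at most once, with two complementary faces `p`, `q`
such that every dual path from `p` to `q` crosses one of the curves at least twice; joining `p` and `q` by
a handle with core `α`, no simple closed geodesic that meets `α` once can be added to the 1-system made
of `α` and the 11 curves.
-/

open UpperHalfPlane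
open scoped MatrixGroups

namespace Pool.Agent.Results.MP_14cec7_gt.MaximalNotFilling

open OneSys

/-- There is a surface of finite type `S = G \ ℍ` (with `G` of finite index in `SL(2, ℤ)` acting freely)
and a maximal 1-system `Γ` on `S` that does not fill `S`.  Moreover some curve `α` of `Γ` is disjoint
from all the other curves of `Γ` and is nonseparating: some simple closed geodesic `δ` of `S` meets
`α` in exactly one point. -/
theorem result : ∃ G : Subgroup SL(2, ℤ),
    G.FiniteIndex ∧ (∀ g ∈ G, ∀ z : ℍ, g • z = z → g = 1) ∧
      ∃ Γ : Set (Set (Surface G)), Maximal (IsOneSystem G) Γ ∧ ¬ Fills G Γ ∧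
        ∃ α ∈ Γ, (∀ γ ∈ Γ, γ ≠ α → Disjoint γ α) ∧
          ∃ δ, IsSimpleClosedGeodesic G δ ∧ (δ ∩ α).encard = 1 :=
  Ex.main

end Pool.Agent.Results.MP_14cec7_gt.MaximalNotFilling
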